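import Mathlib
import Pool.Agent.H44.ZLL.Defs
import Pool.Agent.H44.ZLL.Proof

/-!
# The LL-domination game number is not bounded by twice the Z-domination game number plus one

For every `k` there is a connected graph `G` with `γ_Zg(G) ≤ 2 k + 1` and `γ_LLg(G) ≥ 5 k + 1`.
For `k = 3` this refutes `γ_LLg(G) ≤ 2 γ_Zg(G) + 1`, and the difference `γ_LLg - 2 γ_Zg` is unbounded.
-/

set_option autoImplicit false

namespace Pool.Agent.Results.MP_4d264a_co.UnboundedGap

/-- For every `k` there is a finite connected graph without isolated vertices such that the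
Z-domination game takes at most `2 k + 1` moves and the LL-domination game at least `5 k + 1`
moves.  For `k = 3` this refutes `γ_LLg(G) ≤ 2 γ_Zg(G) + 1`. -/
theorem result (k : ℕ) : ∃ (V : Type) (_ : Fintype V) (G : SimpleGraph V),
    G.Connected ∧ (∀ v, ∃ w, G.Adj v w) ∧
      1 ≤ gammaZg G ∧ gammaZg G ≤ 2 * k + 1 ∧ 5 * k + 1 ≤ gammaLLg G :=
  Pool.H44.ZLL.main k

end Pool.Agent.Results.MP_4d264a_co.UnboundedGap
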